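import Mathlib
import Pool.Agent.H.MP_c0d803_al.Main

namespace Pool.Agent.Results.MP_c0d803_al.Q1

/-- a word read as an element of the free group -/
def word {T : Type} (w : List T) : FreeGroup T := (w.map FreeGroup.of).prod

/-- give the index stack to a nonterminal, leave a terminal unchanged -/
def attach {T N F : Type} (σ : List F) : Symbol T N → Symbol T (N × List F)
  | Symbol.terminal t => Symbol.terminal t
  | Symbol.nonterminal A => Symbol.nonterminal (A, σ)

/-- one derivation step of an indexed grammar with copy rules, push rules and pop rules -/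
def Step {T N F : Type} (R1 : Finset (N × List (Symbol T N))) (R2 : Finset (N × N × F))
    (R3 : Finset (N × F × List (Symbol T N))) (u v : List (Symbol T (N × List F))) : Prop :=
  ∃ (p q : List (Symbol T (N × List F))) (σ : List F) (A : N),
    (∃ α, (A, α) ∈ R1 ∧ u = p ++ [Symbol.nonterminal (A, σ)] ++ q ∧
      v = p ++ α.map (attach σ) ++ q) ∨
    (∃ B f, (A, B, f) ∈ R2 ∧ u = p ++ [Symbol.nonterminal (A, σ)] ++ q ∧
      v = p ++ [Symbol.nonterminal (B, f :: σ)] ++ q) ∨
    (∃ f α, (A, f, α) ∈ R3 ∧ u = p ++ [Symbol.nonterminal (A, f :: σ)] ++ q ∧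
      v = p ++ α.map (attach σ) ++ q)

/-- the language is generated by an indexed grammar -/
def IsIndexed {T : Type} (L : Language T) : Prop :=
  ∃ (N F : Type) (S : N) (R1 : Finset (N × List (Symbol T N))) (R2 : Finset (N × N × F))
    (R3 : Finset (N × F × List (Symbol T N))),
    ∀ w : List T, w ∈ L ↔
      Relation.ReflTransGen (Step R1 R2 R3) [Symbol.nonterminal (S, [])] (w.map Symbol.terminal)

theorem result : ∃ (D : Type) (_ : Finite D) (L : Language D), IsIndexed L ∧
    ∀ (D' : Type) [Finite D'] (L' : Language D'), L'.IsContextFree →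
      IsEmpty (PresentedGroup (word '' (L : Set (List D))) ≃*
        PresentedGroup (word '' (L' : Set (List D')))) :=
  Pool.Agent.H.MP_c0d803_al.main

end Pool.Agent.Results.MP_c0d803_al.Q1
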